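import Pool.Agent.Helper58.Bil.LinkDefs

/-!
# Piece TOOLS-A: calculus with functions that are smooth near a point

Composition, congruence, derivative; smoothness of parametric integrals; Hadamard division.
-/

set_option autoImplicit false

namespace Pool.Agent.Helper58.Bil

open Real Set Filter Topology MeasureTheory

section tools
variable {X Y F : Type} [NormedAddCommGroup X] [NormedSpace ℝ X] [NormedAddCommGroup Y]
  [NormedSpace ℝ Y] [NormedAddCommGroup F] [NormedSpace ℝ F]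

theorem SmAt.contDiffAt {f : X → F} {p : X} (h : SmAt f p) :
    ContDiffAt ℝ ((⊤ : ℕ∞) : WithTop ℕ∞) f p := h.self_of_nhds

theorem SmAt.continuousAt {f : X → F} {p : X} (h : SmAt f p) : ContinuousAt f p :=
  h.contDiffAt.continuousAt

theorem SmAt.eventually {f : X → F} {p : X} (h : SmAt f p) : ∀ᶠ x in 𝓝 p, SmAt f x :=
  eventually_eventually_nhds.2 h

theorem SmAt.of_contDiff {f : X → F} (h : ContDiff ℝ ((⊤ : ℕ∞) : WithTop ℕ∞) f) (p : X) :
    SmAt f p := Eventually.of_forall fun _ => h.contDiffAt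

theorem SmAt.comp {g : Y → F} {f : X → Y} {p : X} (hg : SmAt g (f p)) (hf : SmAt f p) :
    SmAt (fun x => g (f x)) p := by
  have h1 : ∀ᶠ x in 𝓝 p, ContDiffAt ℝ ((⊤ : ℕ∞) : WithTop ℕ∞) g (f x) :=
    hf.continuousAt.eventually hg
  have h2 : ∀ᶠ x in 𝓝 p, ContDiffAt ℝ ((⊤ : ℕ∞) : WithTop ℕ∞) f x := hf
  filter_upwards [h1, h2] with x hx1 hx2
  exact ContDiffAt.comp x hx1 hx2

theorem SmAt.congr {f g : X → F} {p : X} (h : SmAt f p) (hfg : ∀ᶠ x in 𝓝 p, g x = f x) :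
    SmAt g p := by
  have h2 : ∀ᶠ x in 𝓝 p, ContDiffAt ℝ ((⊤ : ℕ∞) : WithTop ℕ∞) f x := h
  have h3 := eventually_eventually_nhds.2 hfg
  filter_upwards [h2, h3] with x hx1 hx2
  exact hx1.congr_of_eventuallyEq hx2

theorem SmAt.fderiv {f : X → F} {p : X} (h : SmAt f p) : SmAt (fun x => fderiv ℝ f x) p := by
  have h2 : ∀ᶠ x in 𝓝 p, ContDiffAt ℝ ((⊤ : ℕ∞) : WithTop ℕ∞) f x := h
  filter_upwards [h2] with x hx
  exact hx.fderiv_right (m := ((⊤ : ℕ∞) : WithTop ℕ∞)) (by simp)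

/-- The derivative of the parametric integral over `[0, 1]`. -/
theorem hasFDerivAt_parint [CompleteSpace F] {Ψ : ℝ × X → F} {p : X}
    (h : ∀ r ∈ Icc (0 : ℝ) 1, SmAt Ψ (r, p)) :
    HasFDerivAt (fun q => ∫ r in (0 : ℝ)..1, Ψ (r, q))
      (∫ r in (0 : ℝ)..1, (_root_.fderiv ℝ Ψ (r, p)).comp (ContinuousLinearMap.inr ℝ ℝ X)) p := by
  -- tube lemma
  have hK : IsCompact (Icc (0 : ℝ) 1) := isCompact_Icc
  have hsm : ∀ᶠ q in 𝓝 p, ∀ r ∈ Icc (0 : ℝ) 1, SmAt Ψ (r, q) := by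
    apply hK.eventually_forall_of_forall_eventually (P := fun q r => SmAt Ψ (r, q))
    intro r hr
    have h1 := (h r hr).eventually
    have h2 : Tendsto (fun z : X × ℝ => (z.2, z.1)) (𝓝 (p, r)) (𝓝 (r, p)) :=
      (continuous_swap.tendsto (p, r))
    exact h2.eventually h1
  -- the derivative in the second variable
  let D : X → ℝ → (X →L[ℝ] F) := fun q r =>
    (_root_.fderiv ℝ Ψ (r, q)).comp (ContinuousLinearMap.inr ℝ ℝ X)
  have hDc : ∀ q r, SmAt Ψ (r, q) → ContinuousAt (fun z : ℝ × X => D z.2 z.1) (r, q) := by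
    intro q r hs
    have h1 : ContinuousAt (fun z : ℝ × X => _root_.fderiv ℝ Ψ z) (r, q) := hs.fderiv.continuousAt
    exact (ContinuousLinearMap.compL ℝ X (ℝ × X) F).flip (ContinuousLinearMap.inr ℝ ℝ X)
      |>.continuous.continuousAt.comp h1
  have hDcr : ContinuousOn (fun r => D p r) (Icc (0 : ℝ) 1) := by
    intro r hr
    have h1 := hDc p r (h r hr)
    have h2 : ContinuousAt (fun r : ℝ => ((r, p) : ℝ × X)) r := by fun_prop
    exact (ContinuousAt.comp (f := fun r : ℝ => ((r, p) : ℝ × X))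
      (g := fun z : ℝ × X => D z.2 z.1) h1 h2).continuousWithinAt
  obtain ⟨C, hC⟩ := hK.exists_bound_of_continuousOn hDcr
  have hbd : ∀ᶠ q in 𝓝 p, ∀ r ∈ Icc (0 : ℝ) 1, ‖D q r‖ ≤ C + 1 := by
    apply hK.eventually_forall_of_forall_eventually (P := fun q r => ‖D q r‖ ≤ C + 1)
    intro r hr
    have h1 := (hDc p r (h r hr)).norm
    have h2 : ∀ᶠ z : ℝ × X in 𝓝 (r, p), ‖D z.2 z.1‖ < C + 1 :=
      h1.eventually (gt_mem_nhds (lt_of_le_of_lt (hC r hr) (by linarith)))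
    have h3 : Tendsto (fun z : X × ℝ => (z.2, z.1)) (𝓝 (p, r)) (𝓝 (r, p)) :=
      (continuous_swap.tendsto (p, r))
    filter_upwards [h3.eventually h2] with z hz
    exact hz.le
  have hcont : ∀ q, (∀ r ∈ Icc (0 : ℝ) 1, SmAt Ψ (r, q)) →
      ContinuousOn (fun r => Ψ (r, q)) (Icc (0 : ℝ) 1) := by
    intro q hq r hr
    have h1 := (hq r hr).continuousAt
    have h2 : ContinuousAt (fun r : ℝ => ((r, q) : ℝ × X)) r := by fun_prop
    exact (ContinuousAt.comp (f := fun r : ℝ => ((r, q) : ℝ × X)) (g := Ψ) h1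
      h2).continuousWithinAt
  obtain ⟨s, hs, hs1⟩ : ∃ s ∈ 𝓝 p, ∀ q ∈ s, (∀ r ∈ Icc (0 : ℝ) 1, SmAt Ψ (r, q)) ∧
      ∀ r ∈ Icc (0 : ℝ) 1, ‖D q r‖ ≤ C + 1 := by
    refine ⟨{q | (∀ r ∈ Icc (0 : ℝ) 1, SmAt Ψ (r, q)) ∧
      ∀ r ∈ Icc (0 : ℝ) 1, ‖D q r‖ ≤ C + 1}, hsm.and hbd, fun q hq => hq⟩
  have hsub : ∀ r ∈ uIoc (0 : ℝ) 1, r ∈ Icc (0 : ℝ) 1 := by
    intro r hr
    rw [uIoc_of_le zero_le_one] at hr
    exact ⟨hr.1.le, hr.2⟩
  refine intervalIntegral.hasFDerivAt_integral_of_dominated_of_fderiv_le (𝕜 := ℝ) (s := s)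
    (F := fun q r => Ψ (r, q)) (F' := D) (bound := fun _ => C + 1) hs ?_ ?_ ?_ ?_ ?_ ?_
  · filter_upwards [hs] with q hq
    exact ((hcont q (hs1 q hq).1).mono hsub).aestronglyMeasurable measurableSet_uIoc
  · apply ContinuousOn.intervalIntegrable
    rw [uIcc_of_le zero_le_one]
    exact hcont p h
  · exact (hDcr.mono hsub).aestronglyMeasurable measurableSet_uIoc
  · refine Eventually.of_forall fun r hr q hq => ?_
    exact (hs1 q hq).2 r (hsub r hr)
  · exact intervalIntegrable_const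
  · refine Eventually.of_forall fun r hr q hq => ?_
    have h1 : ContDiffAt ℝ ((⊤ : ℕ∞) : WithTop ℕ∞) Ψ (r, q) :=
      ((hs1 q hq).1 r (hsub r hr)).contDiffAt
    have h2 : HasFDerivAt Ψ (_root_.fderiv ℝ Ψ (r, q)) (r, q) :=
      (h1.differentiableAt (by simp)).hasFDerivAt
    have h3 : HasFDerivAt (fun q : X => ((r, q) : ℝ × X)) (ContinuousLinearMap.inr ℝ ℝ X) q := by
      exact hasFDerivAt_prodMk_right r q
    exact h2.comp q h3

theorem contDiffAt_parint (n : ℕ) : ∀ {X F : Type} [NormedAddCommGroup X] [NormedSpace ℝ X]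
    [NormedAddCommGroup F] [NormedSpace ℝ F] [CompleteSpace F] {Ψ : ℝ × X → F} {p : X}
    (_ : ∀ r ∈ Icc (0 : ℝ) 1, SmAt Ψ (r, p)),
    ContDiffAt ℝ n (fun q => ∫ r in (0 : ℝ)..1, Ψ (r, q)) p := by
  induction n with
  | zero =>
    intro X F _ _ _ _ _ Ψ p h
    have hK : IsCompact (Icc (0 : ℝ) 1) := isCompact_Icc
    have hsm : ∀ᶠ q in 𝓝 p, ∀ r ∈ Icc (0 : ℝ) 1, SmAt Ψ (r, q) := by
      apply hK.eventually_forall_of_forall_eventually (P := fun q r => SmAt Ψ (r, q))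
      intro r hr
      have h1 := (h r hr).eventually
      have h2 : Tendsto (fun z : X × ℝ => (z.2, z.1)) (𝓝 (p, r)) (𝓝 (r, p)) :=
        (continuous_swap.tendsto (p, r))
      exact h2.eventually h1
    rw [Nat.cast_zero, contDiffAt_zero]
    refine ⟨_, hsm, ?_⟩
    intro q hq
    exact (hasFDerivAt_parint hq).continuousAt.continuousWithinAt
  | succ n ih =>
    intro X F _ _ _ _ _ Ψ p h
    have hK : IsCompact (Icc (0 : ℝ) 1) := isCompact_Icc
    have hsm : ∀ᶠ q in 𝓝 p, ∀ r ∈ Icc (0 : ℝ) 1, SmAt Ψ (r, q) := by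
      apply hK.eventually_forall_of_forall_eventually (P := fun q r => SmAt Ψ (r, q))
      intro r hr
      have h1 := (h r hr).eventually
      have h2 : Tendsto (fun z : X × ℝ => (z.2, z.1)) (𝓝 (p, r)) (𝓝 (r, p)) :=
        (continuous_swap.tendsto (p, r))
      exact h2.eventually h1
    rw [Nat.cast_add, Nat.cast_one, contDiffAt_succ_iff_hasFDerivAt]
    refine ⟨fun q => ∫ r in (0 : ℝ)..1,
      (_root_.fderiv ℝ Ψ (r, q)).comp (ContinuousLinearMap.inr ℝ ℝ X),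
      ⟨_, hsm, fun q hq => hasFDerivAt_parint hq⟩, ?_⟩
    apply ih (Ψ := fun z : ℝ × X => (_root_.fderiv ℝ Ψ z).comp (ContinuousLinearMap.inr ℝ ℝ X))
    intro r hr
    have h1 := (h r hr).fderiv
    have h2 : SmAt (fun L : (ℝ × X) →L[ℝ] F => L.comp (ContinuousLinearMap.inr ℝ ℝ X))
        (_root_.fderiv ℝ Ψ (r, p)) :=
      SmAt.of_contDiff ((ContinuousLinearMap.compL ℝ X (ℝ × X) F).flip
        (ContinuousLinearMap.inr ℝ ℝ X)).contDiff _
    exact SmAt.comp (f := fun z : ℝ × X => _root_.fderiv ℝ Ψ z) h2 h1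

/-- Smoothness of a parametric integral over `[0, 1]`. -/
theorem SmAt.parint [CompleteSpace F] {Ψ : ℝ × X → F} {p : X}
    (h : ∀ r ∈ Icc (0 : ℝ) 1, SmAt Ψ (r, p)) :
    SmAt (fun q => ∫ r in (0 : ℝ)..1, Ψ (r, q)) p := by
  have hK : IsCompact (Icc (0 : ℝ) 1) := isCompact_Icc
  have hsm : ∀ᶠ q in 𝓝 p, ∀ r ∈ Icc (0 : ℝ) 1, SmAt Ψ (r, q) := by
    apply hK.eventually_forall_of_forall_eventually (P := fun q r => SmAt Ψ (r, q))
    intro r hr
    have h1 := (h r hr).eventually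
    have h2 : Tendsto (fun z : X × ℝ => (z.2, z.1)) (𝓝 (p, r)) (𝓝 (r, p)) :=
      (continuous_swap.tendsto (p, r))
    exact h2.eventually h1
  filter_upwards [hsm] with q hq
  exact contDiffAt_infty.2 fun n => contDiffAt_parint n hq

omit [NormedAddCommGroup X] [NormedSpace ℝ X] in
theorem divt_smul (Φ : ℝ × X → F) (w : ℝ × X) (h : Φ (0, w.2) = 0) :
    w.1 • divt Φ w = Φ w := by
  unfold divt
  by_cases h0 : w.1 = 0
  · rw [if_pos h0, h0, zero_smul, ← h]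
    congr 1
    exact Prod.ext h0.symm rfl
  · rw [if_neg h0, smul_smul, mul_inv_cancel₀ h0, one_smul]

omit [NormedAddCommGroup X] [NormedSpace ℝ X] in
theorem divt_zero (Φ : ℝ × X → F) (q : X) : divt Φ (0, q) = deriv (fun t => Φ (t, q)) 0 := by
  simp [divt]

/-- T1 (Hadamard): `divt Φ (t,q) = ∫₀¹ ∂_tΦ(rt,q) dr` near `(0,p)`. -/
theorem SmAt.divt [CompleteSpace F] {Φ : ℝ × X → F} {p : X} (h : SmAt Φ (0, p))
    (h0 : ∀ᶠ q in 𝓝 p, Φ (0, q) = 0) : SmAt (Bil.divt Φ) (0, p) := by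
  have hK : IsCompact (Icc (0 : ℝ) 1) := isCompact_Icc
  -- the integrand
  have hΨ : ∀ r ∈ Icc (0 : ℝ) 1,
      SmAt (fun z : ℝ × (ℝ × X) => _root_.fderiv ℝ Φ (z.1 * z.2.1, z.2.2) ((1 : ℝ), (0 : X)))
        (r, ((0 : ℝ), p)) := by
    intro r _
    have h1 : SmAt (fun z : ℝ × (ℝ × X) => ((z.1 * z.2.1, z.2.2) : ℝ × X)) (r, ((0 : ℝ), p)) := by
      apply SmAt.of_contDiff
      fun_prop
    have h2 : SmAt (fun z : ℝ × X => _root_.fderiv ℝ Φ z)
        ((fun z : ℝ × (ℝ × X) => ((z.1 * z.2.1, z.2.2) : ℝ × X)) (r, ((0 : ℝ), p))) := by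
      simpa using h.fderiv
    have h3 : SmAt (fun z : ℝ × (ℝ × X) => _root_.fderiv ℝ Φ (z.1 * z.2.1, z.2.2))
        (r, ((0 : ℝ), p)) :=
      SmAt.comp (g := fun z : ℝ × X => _root_.fderiv ℝ Φ z)
        (f := fun z : ℝ × (ℝ × X) => ((z.1 * z.2.1, z.2.2) : ℝ × X)) h2 h1
    have h4 : ∀ L : (ℝ × X) →L[ℝ] F, SmAt (fun L : (ℝ × X) →L[ℝ] F => L ((1 : ℝ), (0 : X))) L :=
      fun L => SmAt.of_contDiff (ContinuousLinearMap.apply ℝ F ((1 : ℝ), (0 : X))).contDiff _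
    exact SmAt.comp (g := fun L : (ℝ × X) →L[ℝ] F => L ((1 : ℝ), (0 : X)))
      (f := fun z : ℝ × (ℝ × X) => _root_.fderiv ℝ Φ (z.1 * z.2.1, z.2.2)) (h4 _) h3
  have hI := SmAt.parint hΨ
  refine hI.congr ?_
  -- smoothness along the segment
  have hseg : ∀ᶠ w in 𝓝 ((0 : ℝ), p), ∀ r ∈ Icc (0 : ℝ) 1, SmAt Φ (r * w.1, w.2) := by
    apply hK.eventually_forall_of_forall_eventually (P := fun (w : ℝ × X) (r : ℝ) => SmAt Φ (r * w.1, w.2))
    intro r hr
    have h2 : Tendsto (fun z : (ℝ × X) × ℝ => ((z.2 * z.1.1, z.1.2) : ℝ × X))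
        (𝓝 (((0 : ℝ), p), r)) (𝓝 ((0 : ℝ), p)) := by
      have hc : Continuous (fun z : (ℝ × X) × ℝ => ((z.2 * z.1.1, z.1.2) : ℝ × X)) := by
        fun_prop
      have := hc.tendsto (((0 : ℝ), p), r)
      simpa using this
    exact h2.eventually h.eventually
  have h00 : ∀ᶠ w : ℝ × X in 𝓝 ((0 : ℝ), p), Φ (0, w.2) = 0 := by
    have : Tendsto (fun w : ℝ × X => w.2) (𝓝 ((0 : ℝ), p)) (𝓝 p) :=
      continuous_snd.tendsto ((0 : ℝ), p)
    exact this.eventually h0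
  filter_upwards [hseg, h00] with w hw hw0
  obtain ⟨t, q⟩ := w
  simp only at hw hw0
  have hder : ∀ r ∈ Icc (0 : ℝ) 1, HasDerivAt (fun r => Φ (r * t, q))
      (t • _root_.fderiv ℝ Φ (r * t, q) ((1 : ℝ), (0 : X))) r := by
    intro r hr
    have h1 : HasFDerivAt Φ (_root_.fderiv ℝ Φ (r * t, q)) (r * t, q) :=
      ((hw r hr).contDiffAt.differentiableAt (by simp)).hasFDerivAt
    have h2 : HasDerivAt (fun r : ℝ => ((r * t, q) : ℝ × X)) ((t, (0 : X)) : ℝ × X) r := by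
      have h3 : HasDerivAt (fun r : ℝ => r * t) t r := by
        simpa using (hasDerivAt_id r).mul_const t
      exact h3.prodMk (hasDerivAt_const r q)
    have h4 := h1.comp_hasDerivAt r h2
    have h5 : _root_.fderiv ℝ Φ (r * t, q) ((t, (0 : X)) : ℝ × X)
        = t • _root_.fderiv ℝ Φ (r * t, q) ((1 : ℝ), (0 : X)) := by
      rw [← map_smul]
      congr 1
      ext <;> simp
    rw [h5] at h4
    exact h4
  have hcont : ContinuousOn (fun r : ℝ => _root_.fderiv ℝ Φ (r * t, q) ((1 : ℝ), (0 : X)))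
      (Icc (0 : ℝ) 1) := by
    intro r hr
    have h1 : ContinuousAt (fun z : ℝ × X => _root_.fderiv ℝ Φ z) (r * t, q) :=
      (hw r hr).fderiv.continuousAt
    have h2 : ContinuousAt (fun r : ℝ => ((r * t, q) : ℝ × X)) r := by fun_prop
    have h3 : ContinuousAt (fun r : ℝ => _root_.fderiv ℝ Φ (r * t, q)) r :=
      ContinuousAt.comp (f := fun r : ℝ => ((r * t, q) : ℝ × X))
        (g := fun z : ℝ × X => _root_.fderiv ℝ Φ z) h1 h2
    exact (h3.clm_apply continuousAt_const).continuousWithinAt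
  change Bil.divt Φ (t, q)
    = ∫ r in (0 : ℝ)..1, _root_.fderiv ℝ Φ (r * t, q) ((1 : ℝ), (0 : X))
  by_cases ht : t = 0
  · subst ht
    rw [divt_zero]
    simp only [mul_zero]
    rw [intervalIntegral.integral_const, sub_zero, one_smul]
    have h1 : HasFDerivAt Φ (_root_.fderiv ℝ Φ (0, q)) ((0 : ℝ), q) := by
      have := hw 0 ⟨le_refl _, zero_le_one⟩
      rw [zero_mul] at this
      exact (this.contDiffAt.differentiableAt (by simp)).hasFDerivAt
    have h2 : HasDerivAt (fun r : ℝ => ((r, q) : ℝ × X)) (((1 : ℝ), (0 : X)) : ℝ × X) 0 :=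
      (hasDerivAt_id (0 : ℝ)).prodMk (hasDerivAt_const (0 : ℝ) q)
    exact (h1.comp_hasDerivAt (0 : ℝ) h2).deriv
  · have hint : IntervalIntegrable
        (fun r : ℝ => t • _root_.fderiv ℝ Φ (r * t, q) ((1 : ℝ), (0 : X))) volume 0 1 := by
      apply ContinuousOn.intervalIntegrable
      rw [uIcc_of_le zero_le_one]
      exact hcont.const_smul t
    have hftc := intervalIntegral.integral_eq_sub_of_hasDerivAt
      (f := fun r => Φ (r * t, q)) (a := (0 : ℝ)) (b := 1)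
      (fun r hr => hder r (by rwa [uIcc_of_le zero_le_one] at hr)) hint
    simp only [one_mul, zero_mul, hw0, sub_zero] at hftc
    rw [intervalIntegral.integral_smul] at hftc
    unfold Bil.divt
    simp only
    rw [if_neg ht, ← hftc, smul_smul, inv_mul_cancel₀ ht, one_smul]

/-- T3 (parametric integral with variable end points). -/
theorem SmAt.integral {Φ : ℝ × X → ℝ} {α β : X → ℝ} {p : X} (hα : SmAt α p) (hβ : SmAt β p)
    (h : ∀ y ∈ uIcc (α p) (β p), SmAt Φ (y, p)) :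
    SmAt (fun q => ∫ y in (α q)..(β q), Φ (y, q)) p := by
  have hΨ : ∀ r ∈ Icc (0 : ℝ) 1,
      SmAt (fun z : ℝ × X => Φ ((β z.2 - α z.2) * z.1 + α z.2, z.2)) (r, p) := by
    intro r hr
    have hs : SmAt (fun z : ℝ × X => z.2) (r, p) := SmAt.of_contDiff contDiff_snd _
    have hf : SmAt (fun z : ℝ × X => z.1) (r, p) := SmAt.of_contDiff contDiff_fst _
    have hα' : SmAt (fun z : ℝ × X => α z.2) (r, p) := SmAt.comp (g := α) hα hs
    have hβ' : SmAt (fun z : ℝ × X => β z.2) (r, p) := SmAt.comp (g := β) hβ hs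
    have hin : SmAt (fun z : ℝ × X => (((β z.2 - α z.2) * z.1 + α z.2, z.2) : ℝ × X)) (r, p) := by
      have e1 : ∀ᶠ z in 𝓝 (r, p), ContDiffAt ℝ ((⊤ : ℕ∞) : WithTop ℕ∞)
        (fun z : ℝ × X => α z.2) z := hα'
      have e2 : ∀ᶠ z in 𝓝 (r, p), ContDiffAt ℝ ((⊤ : ℕ∞) : WithTop ℕ∞)
        (fun z : ℝ × X => β z.2) z := hβ'
      filter_upwards [e1, e2] with z hz1 hz2
      exact (((hz2.sub hz1).mul contDiffAt_fst).add hz1).prodMk contDiffAt_snd
    refine SmAt.comp (g := Φ)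
      (f := fun z : ℝ × X => (((β z.2 - α z.2) * z.1 + α z.2, z.2) : ℝ × X)) ?_ hin
    apply h
    change (β p - α p) * r + α p ∈ uIcc (α p) (β p)
    rcases le_total (α p) (β p) with hab | hab
    · rw [uIcc_of_le hab]
      constructor
      · nlinarith [hr.1, hr.2]
      · nlinarith [hr.1, hr.2]
    · rw [uIcc_of_ge hab]
      constructor
      · nlinarith [hr.1, hr.2]
      · nlinarith [hr.1, hr.2]
  have hI := SmAt.parint hΨ
  have hmul : SmAt (fun q => (β q - α q) *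
      ∫ r in (0 : ℝ)..1, Φ ((β q - α q) * r + α q, q)) p := by
    have e1 : ∀ᶠ z in 𝓝 p, ContDiffAt ℝ ((⊤ : ℕ∞) : WithTop ℕ∞) α z := hα
    have e2 : ∀ᶠ z in 𝓝 p, ContDiffAt ℝ ((⊤ : ℕ∞) : WithTop ℕ∞) β z := hβ
    have e3 : ∀ᶠ z in 𝓝 p, ContDiffAt ℝ ((⊤ : ℕ∞) : WithTop ℕ∞)
      (fun q => ∫ r in (0 : ℝ)..1, Φ ((β q - α q) * r + α q, q)) z := hI
    filter_upwards [e1, e2, e3] with z hz1 hz2 hz3
    exact (hz2.sub hz1).mul hz3
  refine hmul.congr (Eventually.of_forall fun q => ?_)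
  have := intervalIntegral.smul_integral_comp_mul_add (a := (0 : ℝ)) (b := 1)
    (f := fun y => Φ (y, q)) (β q - α q) (α q)
  simp only [smul_eq_mul, mul_zero, zero_add, mul_one, sub_add_cancel] at this
  exact this.symm

end tools

end Pool.Agent.Helper58.Bil
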